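import Pool.Agent.W9.PL.Defs
import Pool.Agent.W338.GP.Site

/-!
# PL-EN: one-site data from `T = B Bᵀ`, energy in kernel form
-/

set_option autoImplicit false

open Finset

namespace Pool.Agent.W340.PL.En

open Pool.Agent.H390R2.LP Pool.Agent.W9.PL

variable {N : ℕ} {J : Type} [Fintype J]

/-- exchange of the sums -/
theorem swap4 (B : Fin N → J → ℝ) (f h : Fin N → ℝ) :
    ∑ i, ∑ j, (∑ x, f x * (B x i * B x j)) * (∑ y, h y * (B y i * B y j)) =
      ∑ x, ∑ y, f x * h y * (∑ j, B x j * B y j) ^ 2 := by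
  have h1 : ∀ i j, (∑ x, f x * (B x i * B x j)) * (∑ y, h y * (B y i * B y j)) =
      ∑ x, ∑ y, f x * h y * ((B x i * B y i) * (B x j * B y j)) := by
    intro i j
    rw [sum_mul_sum]
    exact sum_congr rfl fun x _ => sum_congr rfl fun y _ => by ring
  have h2 : ∀ x y, f x * h y * (∑ j, B x j * B y j) ^ 2 =
      ∑ i, ∑ j, f x * h y * ((B x i * B y i) * (B x j * B y j)) := by
    intro x y
    rw [sq, sum_mul_sum, mul_sum]
    exact sum_congr rfl fun i _ => by rw [mul_sum]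
  simp only [h1, h2]
  calc ∑ i, ∑ j, ∑ x, ∑ y, f x * h y * ((B x i * B y i) * (B x j * B y j))
      = ∑ i, ∑ x, ∑ j, ∑ y, f x * h y * ((B x i * B y i) * (B x j * B y j)) :=
        sum_congr rfl fun i _ => sum_comm
    _ = ∑ x, ∑ i, ∑ j, ∑ y, f x * h y * ((B x i * B y i) * (B x j * B y j)) := sum_comm
    _ = ∑ x, ∑ i, ∑ y, ∑ j, f x * h y * ((B x i * B y i) * (B x j * B y j)) :=
        sum_congr rfl fun x _ => sum_congr rfl fun i _ => sum_comm
    _ = ∑ x, ∑ y, ∑ i, ∑ j, f x * h y * ((B x i * B y i) * (B x j * B y j)) :=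
        sum_congr rfl fun x _ => sum_comm

theorem kk (B : Fin N → J → ℝ) :
    ∑ i, ∑ j, (∑ x, B x i * B x j) ^ 2 = ∑ x, ∑ y, (∑ j, B x j * B y j) ^ 2 := by
  have := swap4 B (fun _ => 1) (fun _ => 1)
  simp only [one_mul] at this
  rw [← this]
  exact sum_congr rfl fun i _ => sum_congr rfl fun j _ => sq _

theorem bkb (B : Fin N → J → ℝ) (x : Fin N) :
    ∑ i, ∑ j, B x i * (∑ y, B y i * B y j) * B x j = ∑ y, (∑ j, B x j * B y j) ^ 2 := by
  classical
  have := swap4 B (fun z => if z = x then 1 else 0) (fun _ => 1)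
  simp only [ite_mul, one_mul, zero_mul, mul_one, sum_ite_eq', mem_univ, if_true] at this
  have h2 : ∑ z, ∑ y, (if z = x then (∑ j, B z j * B y j) ^ 2 else 0) =
      ∑ y, (∑ j, B x j * B y j) ^ 2 := by
    rw [sum_comm]; simp
  rw [h2] at this
  rw [← this]
  exact sum_congr rfl fun i _ => sum_congr rfl fun j _ => by ring

theorem energy (B : Fin N → J → ℝ) (n : ℝ) (_hn : 0 < n) (f : Fin N → ℝ) :
    2 / n * (∑ x, (∑ y, (∑ j, B x j * B y j) ^ 2) * f x ^ 2
      - ∑ i, ∑ j, (∑ x, f x * (B x i * B x j)) ^ 2) =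
    (∑ x, ∑ y, (∑ j, B x j * B y j) ^ 2 * (f x - f y) ^ 2) / n := by
  have h1 : ∑ i, ∑ j, (∑ x, f x * (B x i * B x j)) ^ 2 =
      ∑ x, ∑ y, f x * f y * (∑ j, B x j * B y j) ^ 2 := by
    rw [← swap4 B f f]
    exact sum_congr rfl fun i _ => sum_congr rfl fun j _ => sq _
  have hT : ∀ x y, (∑ j, B x j * B y j) ^ 2 = (∑ j, B y j * B x j) ^ 2 := fun x y => by
    congr 1; exact sum_congr rfl fun j _ => mul_comm _ _
  have h2 : ∑ x, ∑ y, (∑ j, B x j * B y j) ^ 2 * (f x - f y) ^ 2 =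
      2 * (∑ x, ∑ y, (∑ j, B x j * B y j) ^ 2 * f x ^ 2) -
        2 * ∑ x, ∑ y, f x * f y * (∑ j, B x j * B y j) ^ 2 := by
    have h3 : ∑ x, ∑ y, (∑ j, B x j * B y j) ^ 2 * f y ^ 2 =
        ∑ x, ∑ y, (∑ j, B x j * B y j) ^ 2 * f x ^ 2 := by
      rw [sum_comm]
      exact sum_congr rfl fun x _ => sum_congr rfl fun y _ => by rw [hT]
    have h4 : ∑ x, ∑ y, (∑ j, B x j * B y j) ^ 2 * (f x - f y) ^ 2 =
        (∑ x, ∑ y, (∑ j, B x j * B y j) ^ 2 * f x ^ 2) +
        (∑ x, ∑ y, (∑ j, B x j * B y j) ^ 2 * f y ^ 2) -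
        2 * ∑ x, ∑ y, f x * f y * (∑ j, B x j * B y j) ^ 2 := by
      rw [mul_sum, ← sum_add_distrib, ← sum_sub_distrib]
      refine sum_congr rfl fun x _ => ?_
      rw [mul_sum, ← sum_add_distrib, ← sum_sub_distrib]
      exact sum_congr rfl fun y _ => by ring
    rw [h4, h3]; ring
  rw [h1, h2]
  simp only [sum_mul]
  ring

theorem en : S_en := by
  intro N J _ _ B n D hcard hK hn hpos hD hform
  obtain ⟨s, h1, h2, h3⟩ := Pool.Agent.W338.GP.site N Unit J (fun x _ i => B x i)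
    (fun i j => ∑ x, B x i * B x j) (fun x _ => D x) n (by simpa using hcard)
    (fun i j => by simp) hK (by rw [kk, ← hn]) hpos (fun x _ => hD x) (by
      intro x v
      have e1 : ∑ i, ∑ j, (∑ a : Unit, v a * B x i) * (∑ y, B y i * B y j) *
          (∑ a : Unit, v a * B x j) =
          v () ^ 2 * ∑ i, ∑ j, B x i * (∑ y, B y i * B y j) * B x j := by
        rw [mul_sum]
        refine sum_congr rfl fun i _ => ?_
        rw [mul_sum]
        refine sum_congr rfl fun j _ => ?_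
        simp only [univ_unique, sum_singleton, PUnit.default_eq_unit]
        ring
      rw [e1, bkb]
      simp only [univ_unique, sum_singleton, PUnit.default_eq_unit]
      have := mul_le_mul_of_nonneg_left (hform x) (sq_nonneg (v ()))
      linarith)
  refine ⟨s, h1, ?_, ?_⟩
  · refine le_trans (le_of_eq ?_) h2
    congr 1
    refine sum_congr rfl fun x _ => ?_
    simp only [univ_unique, sum_singleton]
    rw [bkb]
  · intro I _ f
    have e2 : s.E f = ∑ i, s.E (fun _ : Unit => f i) := by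
      unfold Site.E
      rw [mul_sum]
      refine sum_congr rfl fun i _ => ?_
      simp only [univ_unique, sum_singleton]
    rw [e2]
    have e3 : ∀ i, s.E (fun _ : Unit => f i) =
        (∑ x, ∑ y, (∑ j, B x j * B y j) ^ 2 * (f i x - f i y) ^ 2) / n := by
      intro i
      rw [h3 (f i), ← energy B n hpos (f i)]
      simp only [univ_unique, sum_singleton, bkb]
    simp only [e3]
    rw [← sum_div]
    congr 1
    rw [sum_comm]
    refine sum_congr rfl fun x _ => ?_
    rw [sum_comm]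
    refine sum_congr rfl fun y _ => ?_
    rw [mul_sum]

end Pool.Agent.W340.PL.En
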